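import Pool.Agent.Helper29.SR.Props

open scoped ENNReal NNReal InnerProductSpace ComplexOrder
open Filter Topology

attribute [-instance] CStarMatrix.instAlgebra CStarMatrix.instModule CStarMatrix.instSMul
  CStarMatrix.instMulAction CStarMatrix.instDistribMulAction

noncomputable section
namespace RC
universe u

namespace CoreStep94

theorem ramp_cont (s t : ℝ) : Continuous (ramp s t) := by
  unfold ramp
  exact continuous_const.max (continuous_const.min ((continuous_id.sub continuous_const).div_const _))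

theorem ramp_nonneg (s t x : ℝ) : 0 ≤ ramp s t x := le_max_left _ _

theorem ramp_le (s t x : ℝ) : ramp s t x ≤ 1 := by
  unfold ramp
  exact max_le zero_le_one (min_le_left _ _)

theorem ramp_zero {s t x : ℝ} (h : s < t) (hx : x ≤ s) : ramp s t x = 0 := by
  unfold ramp
  apply max_eq_left
  apply (min_le_right _ _).trans
  exact div_nonpos_of_nonpos_of_nonneg (by linarith) (by linarith)

theorem ramp_one {s t x : ℝ} (h : s < t) (hx : t ≤ x) : ramp s t x = 1 := by
  unfold ramp
  have : 1 ≤ (x - s) / (t - s) := by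
    rw [le_div_iff₀ (by linarith)]; linarith
  rw [min_eq_left this]; simp

/-- `1 + x y` is a unit if `1 + y x` is one, with a central unit in place of `1`. -/
theorem unit_swap {M : Type u} [Ring M] (L L' x y : M) (hL : L * L' = 1) (hL' : L' * L = 1)
    (hx : ∀ z, L * z = z * L) (h : IsUnit (L + y * x)) : IsUnit (L + x * y) := by
  obtain ⟨w, hw⟩ := h
  have h1 : (L + y * x) * (↑w⁻¹ : M) = 1 := by rw [← hw]; exact w.mul_inv
  have h2 : (↑w⁻¹ : M) * (L + y * x) = 1 := by rw [← hw]; exact w.inv_mul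
  set v : M := (↑w⁻¹ : M)
  have hx' : ∀ z, L' * z = z * L' := by
    intro z
    calc L' * z = L' * z * (L * L') := by rw [hL, mul_one]
      _ = L' * (z * L) * L' := by noncomm_ring
      _ = L' * (L * z) * L' := by rw [hx]
      _ = (L' * L) * z * L' := by noncomm_ring
      _ = z * L' := by rw [hL', one_mul]
  -- inverse: `L' (1 - x v y)`
  have e1 : y * x * v = 1 - L * v := by
    have : L * v + y * x * v = 1 := by rw [← add_mul]; exact h1
    rw [← this]; noncomm_ring
  have e2 : v * (y * x) = 1 - v * L := by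
    have : v * L + v * (y * x) = 1 := by rw [← mul_add]; exact h2
    rw [← this]; noncomm_ring
  refine isUnit_iff_exists.mpr ⟨L' * (1 - x * v * y), ?_, ?_⟩
  · calc (L + x * y) * (L' * (1 - x * v * y))
        = (L + x * y) * ((1 - x * v * y) * L') := by rw [hx']
      _ = (L - L * x * v * y + x * y - x * (y * x * v) * y) * L' := by noncomm_ring
      _ = (L - L * x * v * y + x * y - x * (1 - L * v) * y) * L' := by rw [e1]
      _ = (L - L * x * v * y + (x * L) * v * y) * L' := by noncomm_ring
      _ = L * L' := by rw [← hx x]; noncomm_ring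
      _ = 1 := hL
  · calc L' * (1 - x * v * y) * (L + x * y)
        = L' * (L + x * y - x * v * (y * L) - x * (v * (y * x)) * y) := by noncomm_ring
      _ = L' * (L + x * y - x * v * (y * L) - x * (1 - v * L) * y) := by rw [e2]
      _ = L' * (L - x * v * (y * L) + x * v * (L * y)) := by noncomm_ring
      _ = L' * L := by rw [← hx y]; noncomm_ring
      _ = 1 := hL'

theorem unit_lower {M : Type u} [CStarAlgebra M] [PartialOrder M] [StarOrderedRing M] (u : M)
    (hu : IsUnit u) : ∃ δ : ℝ, 0 < δ ∧ δ • (1 : M) ≤ sq u := by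
  obtain ⟨w, rfl⟩ := hu
  set v : M := (↑w⁻¹ : M)
  have hv : v * (w : M) = 1 := w.inv_mul
  have hc : (0 : ℝ) < ‖v‖ ^ 2 + 1 := by positivity
  have h0 : (0 : M) ≤ sq (w : M) := star_mul_self_nonneg _
  have h1 : star v * v ≤ algebraMap ℝ M (‖v‖ ^ 2) := CStarAlgebra.star_mul_le_algebraMap_norm_sq
  have h2 := star_left_conjugate_le_conjugate h1 (w : M)
  have h3 : star (w : M) * (star v * v) * (w : M) = 1 := by
    calc star (w : M) * (star v * v) * (w : M) = star (v * (w : M)) * (v * (w : M)) := by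
          rw [star_mul]; noncomm_ring
      _ = 1 := by rw [hv]; simp
  have h4 : star (w : M) * algebraMap ℝ M (‖v‖ ^ 2) * (w : M) = (‖v‖ ^ 2) • sq (w : M) := by
    rw [Algebra.algebraMap_eq_smul_one, mul_smul_comm, smul_mul_assoc, mul_one]
  rw [h3, h4] at h2
  have h5 : (1 : M) ≤ (‖v‖ ^ 2 + 1) • sq (w : M) := by
    refine h2.trans ?_
    rw [add_smul, one_smul]
    exact le_add_of_nonneg_right h0
  refine ⟨(‖v‖ ^ 2 + 1)⁻¹, inv_pos.mpr hc, ?_⟩
  calc (‖v‖ ^ 2 + 1)⁻¹ • (1 : M) ≤ (‖v‖ ^ 2 + 1)⁻¹ • ((‖v‖ ^ 2 + 1) • sq (w : M)) :=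
        smul_le_smul_of_nonneg_left h5 (inv_pos.mpr hc).le
    _ = sq (w : M) := by rw [smul_smul, inv_mul_cancel₀ hc.ne', one_smul]

theorem coreStep (h1 : InvExtP.{u}) (h2 : H1P.{u}) : CoreStepP.{u} := by
  intro M _ _ _ hsr a b X₀ X₁ ε κ hε hκ
  set V0 : M := b * X₀ * a with hV0
  set V1 : M := b * X₁ * a with hV1
  set P : M := sq V1 with hPdef
  have hP : IsSelfAdjoint P := IsSelfAdjoint.star_mul_self V1
  let fc : ℝ → ℝ := ramp (ε / 3) (2 * ε / 3)
  let fb : ℝ → ℝ := ramp (2 * ε / 3) ε
  let fa : ℝ → ℝ := fun t => max (t - ε) 0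
  let ft : ℝ → ℝ := fun t => fb t / max t (ε / 3)
  let fs : ℝ → ℝ := fun t => Real.sqrt (fb t)
  have cc : Continuous fc := ramp_cont _ _
  have cb : Continuous fb := ramp_cont _ _
  have ca : Continuous fa := (continuous_id.sub continuous_const).max continuous_const
  have ct : Continuous ft := by
    apply cb.div (continuous_id.max continuous_const)
    intro x
    have : 0 < max x (ε / 3) := lt_of_lt_of_le (by positivity) (le_max_right _ _)
    exact this.ne'
  have cs : Continuous fs := Real.continuous_sqrt.comp cb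
  have h13 : ε / 3 < 2 * ε / 3 := by linarith
  have h23 : 2 * ε / 3 < ε := by linarith
  set Fc : M := cfc fc P with hFc
  set Fb : M := cfc fb P with hFb
  set Fa : M := cfc fa P with hFa
  set Ft : M := cfc ft P with hFt
  set h : M := cfc fs P with hh
  have mulc : ∀ f g : ℝ → ℝ, Continuous f → Continuous g → ∀ k : ℝ → ℝ,
      (∀ t, f t * g t = k t) → cfc f P * cfc g P = cfc k P := by
    intro f g hf hg k hk
    rw [← cfc_mul f g P hf.continuousOn hg.continuousOn]
    congr 1
    funext t
    exact hk t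
  have ecb : Fc * Fb = Fb := by
    refine mulc fc fb cc cb fb fun t => ?_
    rcases le_total t (2 * ε / 3) with ht | ht
    · have : fb t = 0 := ramp_zero h23 ht
      rw [this, mul_zero]
    · have : fc t = 1 := ramp_one h13 ht
      rw [this, one_mul]
  have eba : Fb * Fa = Fa := by
    refine mulc fb fa cb ca fa fun t => ?_
    rcases le_total t ε with ht | ht
    · have : fa t = 0 := max_eq_right (by linarith)
      rw [this, mul_zero]
    · have : fb t = 1 := ramp_one h23 ht
      rw [this, one_mul]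
  have ehh : h * h = Fb := by
    refine mulc fs fs cs cs fb fun t => ?_
    exact Real.mul_self_sqrt (ramp_nonneg _ _ _)
  have ech : Fc * h = h := by
    refine mulc fc fs cc cs fs fun t => ?_
    rcases le_total t (2 * ε / 3) with ht | ht
    · have : fb t = 0 := ramp_zero h23 ht
      show fc t * Real.sqrt (fb t) = Real.sqrt (fb t)
      rw [this, Real.sqrt_zero, mul_zero]
    · have : fc t = 1 := ramp_one h13 ht
      rw [this, one_mul]
  have ehc : h * Fc = h := by
    refine mulc fs fc cs cc fs fun t => ?_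
    rcases le_total t (2 * ε / 3) with ht | ht
    · have : fb t = 0 := ramp_zero h23 ht
      show Real.sqrt (fb t) * fc t = Real.sqrt (fb t)
      rw [this, Real.sqrt_zero, zero_mul]
    · have : fc t = 1 := ramp_one h13 ht
      rw [this, mul_one]
  have etP : Ft * P = Fb := by
    have e := mulc ft (fun t => t) ct continuous_id fb fun t => by
      rcases le_total t (ε / 3) with ht | ht
      · have : fb t = 0 := ramp_zero h23 (by linarith)
        show fb t / _ * t = fb t
        rw [this]; simp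
      · have h0 : t ≠ 0 := by
          have : 0 < t := lt_of_lt_of_le (by positivity) ht
          exact this.ne'
        show fb t / max t (ε / 3) * t = fb t
        rw [max_eq_left ht, div_mul_cancel₀ _ h0]
    have e2 : cfc (fun t : ℝ => t) P = P := cfc_id' ℝ P hP
    rw [e2] at e
    exact e
  have nc : ‖Fc‖ ≤ 1 := by
    apply norm_cfc_le zero_le_one
    intro x _
    rw [Real.norm_of_nonneg (ramp_nonneg _ _ _)]
    exact ramp_le _ _ _
  have nb : ‖Fb‖ ≤ 1 := by
    apply norm_cfc_le zero_le_one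
    intro x _
    rw [Real.norm_of_nonneg (ramp_nonneg _ _ _)]
    exact ramp_le _ _ _
  have sa : star Fa = Fa := (IsSelfAdjoint.cfc (f := fa) (a := P)).star_eq
  obtain ⟨y, hy, hyF⟩ := h1 M hsr V1 (ε / 3) (by positivity)
  have yc : y * Fc = V1 * Fc := hyF fc cc fun t ht => ramp_zero h13 ht
  have ya : y * Fa = V1 * Fa := hyF fa ca fun t ht => max_eq_right (by linarith)
  obtain ⟨w, hw⟩ := hy
  set y' : M := (↑w⁻¹ : M) with hy'
  have yy' : y * y' = 1 := by rw [← hw]; exact w.mul_inv
  set s : M := y' * V0 with hs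
  have ys : y * s = V0 := by rw [hs, ← mul_assoc, yy', one_mul]
  set lam : ℝ := κ / (2 * ‖V1‖ + 2) with hlam
  have hden : (0 : ℝ) < 2 * ‖V1‖ + 2 := by positivity
  have hlam0 : 0 < lam := div_pos hκ hden
  obtain ⟨g, hg, hunit⟩ := h2 M hsr h s lam lam hlam0 hlam0
  set L : M := lam • (1 : M) with hL
  have Lc : ∀ z : M, L * z = z * L := by
    intro z
    rw [hL, smul_mul_assoc, mul_smul_comm, one_mul, mul_one]
  have LL : L * (lam⁻¹ • (1 : M)) = 1 := by
    rw [hL, smul_mul_assoc, one_mul, smul_smul, mul_inv_cancel₀ hlam0.ne', one_smul]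
  have LL' : (lam⁻¹ • (1 : M)) * L = 1 := by rw [← Lc, LL]
  set T : M := s + Fc * (g - s) with hT
  set V : M := V0 + V1 * Fc * (g - s + L) * Fb with hV
  set X : M := X₀ + X₁ * a * Fc * (g - s + L) * Ft * star V1 * b * X₁ with hX
  have hbXa : b * X * a = V := by
    have e1 : Fb = Ft * (star V1 * V1) := etP.symm
    calc b * X * a = b * X₀ * a + (b * X₁ * a) * Fc * (g - s + L) * (Ft * (star V1 * (b * X₁ * a))) := by
          rw [hX]; noncomm_ring
      _ = V := by rw [hV, e1, ← hV0, ← hV1]
  -- `Y` is a unit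
  have hYu : IsUnit (L + T * Fb) := by
    have e : T * Fb = (T * h) * h := by rw [mul_assoc, ehh]
    rw [e]
    apply unit_swap L (lam⁻¹ • (1 : M)) (T * h) h LL LL' Lc
    have e2 : h * (T * h) = h * g * h := by
      calc h * (T * h) = h * s * h + (h * Fc) * (g - s) * h := by rw [hT]; noncomm_ring
        _ = h * s * h + h * (g - s) * h := by rw [ehc]
        _ = h * g * h := by noncomm_ring
    rw [e2]
    exact hunit
  have hyu : IsUnit (y * (L + T * Fb)) := by
    rw [← hw]
    exact w.isUnit.mul hYu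
  have hca : Fc * Fa = Fa := by
    calc Fc * Fa = (Fc * Fb) * Fa := by rw [mul_assoc, eba]
      _ = Fa := by rw [ecb, eba]
  have hVa : V * Fa = y * (L + T * Fb) * Fa := by
    calc V * Fa = V0 * Fa + V1 * Fc * (g - s) * (Fb * Fa) + V1 * Fc * (L * (Fb * Fa)) := by
          rw [hV]; noncomm_ring
      _ = V0 * Fa + V1 * Fc * (g - s) * Fa + V1 * (Fc * Fa) * L := by
          rw [eba, Lc]; noncomm_ring
      _ = V0 * Fa + V1 * Fc * (g - s) * Fa + V1 * Fa * L := by rw [hca]
      _ = V0 * Fa + y * Fc * (g - s) * Fa + y * Fa * L := by rw [yc, ya]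
      _ = V0 * Fa + y * Fc * (g - s) * Fa + y * (L * Fa) := by rw [Lc Fa, ← mul_assoc y Fa L]
      _ = (y * s) * Fa + y * Fc * (g - s) * Fa + y * (L * Fa) := by rw [ys]
      _ = y * L * Fa + y * (s + Fc * (g - s)) * (Fb * Fa) := by rw [eba]; noncomm_ring
      _ = y * (L + T * Fb) * Fa := by rw [hT]; noncomm_ring
  obtain ⟨δ, hδ, hδu⟩ := unit_lower _ hyu
  refine ⟨X, δ, hδ, ?_, ?_⟩
  · have e : b * X * a - V0 = V1 * Fc * (g - s + L) * Fb := by rw [hbXa, hV]; noncomm_ring
    rw [e]
    have nL : ‖L‖ ≤ lam := by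
      rw [hL]
      refine (norm_smul_le _ _).trans ?_
      rw [Real.norm_of_nonneg hlam0.le]
      have h1' : ‖(1 : M)‖ ≤ 1 := by
        rcases subsingleton_or_nontrivial M with hM | hM
        · rw [Subsingleton.elim (1 : M) 0, norm_zero]; exact zero_le_one
        · exact (CStarRing.norm_one).le
      calc lam * ‖(1 : M)‖ ≤ lam * 1 := by gcongr
        _ = lam := mul_one _
    calc ‖V1 * Fc * (g - s + L) * Fb‖ ≤ ‖V1‖ * ‖Fc‖ * ‖g - s + L‖ * ‖Fb‖ := by
          refine (norm_mul_le _ _).trans ?_
          gcongr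
          refine (norm_mul_le _ _).trans ?_
          gcongr
          exact norm_mul_le _ _
      _ ≤ ‖V1‖ * 1 * (lam + lam) * 1 := by
          gcongr
          exact (norm_add_le _ _).trans (add_le_add hg nL)
      _ = 2 * ‖V1‖ * lam := by ring
      _ ≤ (2 * ‖V1‖ + 2) * lam := by nlinarith
      _ = κ := by rw [hlam]; field_simp
  · show δ • (Fa * Fa) ≤ Fa * sq (b * X * a) * Fa
    rw [hbXa]
    have e1 : Fa * sq V * Fa = star (V * Fa) * (V * Fa) := by
      show Fa * (star V * V) * Fa = _
      rw [star_mul, sa]; noncomm_ring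
    have e2 : star (y * (L + T * Fb) * Fa) * (y * (L + T * Fb) * Fa) =
        Fa * sq (y * (L + T * Fb)) * Fa := by
      show _ = Fa * (star (y * (L + T * Fb)) * (y * (L + T * Fb))) * Fa
      rw [star_mul (y * (L + T * Fb)) Fa, sa]; noncomm_ring
    rw [e1, hVa, e2]
    have e3 := star_left_conjugate_le_conjugate hδu Fa
    rw [sa] at e3
    have e4 : Fa * δ • (1 : M) * Fa = δ • (Fa * Fa) := by
      rw [mul_smul_comm, mul_one, smul_mul_assoc]
    rw [e4] at e3
    exact e3

end CoreStep94

theorem coreStep (h1 : InvExtP.{u}) (h2 : H1P.{u}) : CoreStepP.{u} := CoreStep94.coreStep h1 h2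

end RC
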