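import Pool.Agent.Helper7.SR.Goals

/-! SR: S_EX1, the averaging argument. -/

namespace Pool.Agent.Helper94.SR

open Finset Pool.Agent.Helper7.SR
open scoped Classical

/-- The involution of `D ⊕ Y` given by a partial injection from `D` to `Y`. -/
theorem exists_invol {D Y : Type*} (S : D → Prop) (g : ∀ x, S x → Y)
    (hg : ∀ x x' (h : S x) (h' : S x'), g x h = g x' h' → x = x') :
    ∃ π : D ⊕ Y → D ⊕ Y, (∀ v, π (π v) = v) ∧ (∀ x (h : S x), π (Sum.inl x) = Sum.inr (g x h)) ∧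
      (∀ x, ¬ S x → π (Sum.inl x) = Sum.inl x) ∧
      ∀ y, (π (Sum.inr y) = Sum.inr y) ∨ ∃ x, π (Sum.inr y) = Sum.inl x := by
  let π : D ⊕ Y → D ⊕ Y := fun v => match v with
    | Sum.inl x => if h : S x then Sum.inr (g x h) else Sum.inl x
    | Sum.inr y => if h : ∃ x, ∃ hx : S x, g x hx = y then Sum.inl h.choose else Sum.inr y
  have h1 : ∀ x (h : S x), π (Sum.inl x) = Sum.inr (g x h) := fun x h => dif_pos h
  have h2 : ∀ x, ¬ S x → π (Sum.inl x) = Sum.inl x := fun x h => dif_neg h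
  have h3 : ∀ x (h : S x), π (Sum.inr (g x h)) = Sum.inl x := by
    intro x h
    have h4 : ∃ x', ∃ hx : S x', g x' hx = g x h := ⟨x, h, rfl⟩
    have h5 : π (Sum.inr (g x h)) = Sum.inl h4.choose := dif_pos h4
    obtain ⟨h6, h7⟩ := h4.choose_spec
    rw [h5, hg _ _ h6 h h7]
  have h4 : ∀ y, (¬ ∃ x, ∃ hx : S x, g x hx = y) → π (Sum.inr y) = Sum.inr y :=
    fun y h => dif_neg h
  refine ⟨π, ?_, h1, h2, ?_⟩
  · rintro (x | y)
    · by_cases h : S x
      · rw [h1 x h, h3 x h]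
      · rw [h2 x h, h2 x h]
    · by_cases h : ∃ x, ∃ hx : S x, g x hx = y
      · obtain ⟨x, hx, rfl⟩ := h
        rw [h3 x hx, h1 x hx]
      · rw [h4 y h, h4 y h]
  · intro y
    by_cases h : ∃ x, ∃ hx : S x, g x hx = y
    · obtain ⟨x, hx, rfl⟩ := h
      exact Or.inr ⟨x, h3 x hx⟩
    · exact Or.inl (h4 y h)

section

universe u

variable {α : Type u}

/-- the vertices -/
abbrev V (R T : Finset α) (q : ℕ) : Type _ := {x // x ∈ R \ T} ⊕ ({y // y ∈ T} × Fin (q - 1))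

/-- a vertex on the `x`-side -/
def xv {R T : Finset α} {q : ℕ} : V R T q → Option α
  | Sum.inl x => some x
  | Sum.inr _ => none

/-- a vertex on the `y`-side -/
def yv {R T : Finset α} {q : ℕ} : V R T q → Option α
  | Sum.inl _ => none
  | Sum.inr y => some y.1

theorem exists_pi (h : S_HALL.{u}) (M : Matroid α) {R T : Finset α} {q : ℕ} (hq : 1 ≤ q) (hTR : T ⊆ R)
    (hT : M.Indep (T : Set α)) (hD : Dens M R q) :
    ∃ π : V R T q → V R T q, (∀ v, π (π v) = v) ∧ ∀ v, AR M R T (xv v) (yv (π v)) := by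
  obtain ⟨π0, h1, h2⟩ := h α M R T q hq hTR hT hD
  have hmem : ∀ x : {x // x ∈ R \ T}, (x : α) ∈ R ∧ (x : α) ∉ T := fun x => mem_sdiff.1 x.2
  obtain ⟨π, hi, k1, k2, k3⟩ := exists_invol (D := {x // x ∈ R \ T})
    (Y := {y // y ∈ T} × Fin (q - 1)) (fun x => (x : α) ∈ M.closure (T : Set α))
    (fun x hx => (⟨(π0 x).1, (h1 x (hmem x).1 (hmem x).2 hx).1.1⟩,
      ⟨(π0 x).2, (h1 x (hmem x).1 (hmem x).2 hx).2⟩)) (by
        intro x x' hx hx' he
        apply Subtype.ext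
        apply h2 x x' (hmem x).1 (hmem x).2 hx (hmem x').1 (hmem x').2 hx'
        rw [Prod.mk.injEq, Subtype.mk.injEq, Fin.mk.injEq] at he
        exact Prod.ext he.1 he.2)
  refine ⟨π, hi, ?_⟩
  rintro (x | y)
  · by_cases hx : (x : α) ∈ M.closure (T : Set α)
    · rw [k1 x hx]
      exact ⟨(hmem x).1, (h1 x (hmem x).1 (hmem x).2 hx).1⟩
    · rw [k2 x hx]
      exact ⟨(hmem x).1, hD.1 (hmem x).1, (hmem x).2, hx⟩
  · rcases k3 y with h4 | ⟨x, h4⟩
    · rw [h4]
      exact y.1.2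
    · rw [h4]
      exact trivial

theorem sum_wa (om : α → ℝ) {R T : Finset α} {q : ℕ} :
    ∑ v : V R T q, wa om (xv v) = ∑ v ∈ R \ T, om v := by
  rw [Fintype.sum_sum_type]
  have h1 : ∑ x : {y // y ∈ T} × Fin (q - 1), wa om (xv (Sum.inr x : V R T q)) = 0 :=
    Finset.sum_eq_zero fun _ _ => rfl
  rw [h1, add_zero]
  exact Finset.sum_coe_sort (R \ T) om

theorem sum_wb (c : ℝ) (om : α → ℝ) {R T : Finset α} {q : ℕ} (hq : 1 ≤ q) :
    ∑ v : V R T q, wb c om (yv v) = c * ((q : ℝ) - 1) * ∑ v ∈ T, om v := by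
  rw [Fintype.sum_sum_type]
  have h1 : ∑ x : {x // x ∈ R \ T}, wb c om (yv (Sum.inl x : V R T q)) = 0 :=
    Finset.sum_eq_zero fun _ _ => rfl
  rw [h1, zero_add, Fintype.sum_prod_type]
  have h2 : ∀ x : {y // y ∈ T}, ∑ y : Fin (q - 1), wb c om (yv (Sum.inr (x, y) : V R T q)) =
      c * ((q : ℝ) - 1) * om x := by
    intro x
    have h3 : ∀ y : Fin (q - 1), wb c om (yv (Sum.inr (x, y) : V R T q)) = c * om x :=
      fun y => rfl
    rw [Finset.sum_congr rfl fun y _ => h3 y, Finset.sum_const, Finset.card_univ, Fintype.card_fin,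
      nsmul_eq_mul, Nat.cast_sub hq, Nat.cast_one]
    ring
  rw [Finset.sum_congr rfl fun x _ => h2 x, ← Finset.mul_sum]
  congr 1
  exact Finset.sum_coe_sort T om

end

theorem s_ex1.{u} (h : S_HALL.{u}) : S_EX1.{u} := by
  intro α M N R T q s c om hq hs hTR hM hN hDM hDN hc hom hlt
  obtain ⟨π, hπ, hπA⟩ := exists_pi h M hq hTR hM hDM
  obtain ⟨σ, hσ, hσA⟩ := exists_pi h N hq hTR hN hDN
  let eπ : Equiv.Perm (V R T q) := ⟨π, π, hπ, hπ⟩
  let eσ : Equiv.Perm (V R T q) := ⟨σ, σ, hσ, hσ⟩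
  let ρ : Equiv.Perm (V R T q) := eσ * eπ
  have hρ : ∀ v, ρ v = σ (π v) := fun _ => rfl
  -- the gain of the sequence of `v`
  let G : V R T q → ℝ := fun v =>
    ∑ p ∈ range s, (wa om (xv ((ρ ^ p) v)) - wb c om (yv (π ((ρ ^ p) v)))) - wb c om (yv (σ v))
  have hG : ∑ v, G v = s * ∑ v ∈ R \ T, om v - ((s : ℝ) + 1) * c * ((q : ℝ) - 1) * ∑ v ∈ T, om v := by
    have e1 : ∀ p, ∑ v, wa om (xv ((ρ ^ p) v)) = ∑ v ∈ R \ T, om v := fun p => by
      rw [← sum_wa (R := R) (T := T) (q := q)]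
      exact Equiv.sum_comp (ρ ^ p) fun v => wa om (xv v)
    have e2 : ∀ p, ∑ v, wb c om (yv (π ((ρ ^ p) v))) = c * ((q : ℝ) - 1) * ∑ v ∈ T, om v :=
      fun p => by
        rw [← sum_wb (R := R) (T := T) (q := q) c om hq]
        rw [← Equiv.sum_comp eπ fun v => wb c om (yv v)]
        exact Equiv.sum_comp (ρ ^ p) fun v => wb c om (yv (π v))
    have e3 : ∑ v, wb c om (yv (σ v)) = c * ((q : ℝ) - 1) * ∑ v ∈ T, om v := by
      rw [← sum_wb (R := R) (T := T) (q := q) c om hq]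
      exact Equiv.sum_comp eσ fun v => wb c om (yv v)
    change ∑ v, (∑ p ∈ range s, (wa om (xv ((ρ ^ p) v)) - wb c om (yv (π ((ρ ^ p) v)))) -
      wb c om (yv (σ v))) = _
    rw [Finset.sum_sub_distrib, Finset.sum_comm, e3]
    have e4 : ∀ p ∈ range s, ∑ v, (wa om (xv ((ρ ^ p) v)) - wb c om (yv (π ((ρ ^ p) v)))) =
        ∑ v ∈ R \ T, om v - c * ((q : ℝ) - 1) * ∑ v ∈ T, om v := fun p _ => by
      rw [Finset.sum_sub_distrib, e1, e2]
    rw [Finset.sum_congr rfl e4, Finset.sum_const, card_range, nsmul_eq_mul]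
    ring
  have hpos : ∃ v, 0 < G v := by
    by_contra hcon
    push Not at hcon
    have e1 : ∑ v, G v ≤ 0 := Finset.sum_nonpos fun v _ => hcon v
    rw [hG] at e1
    linarith
  obtain ⟨v, hv⟩ := hpos
  -- the sequence
  let x : ℕ → Option α := fun p => if p % (s + 1) < s then xv ((ρ ^ (p % (s + 1))) v) else none
  let y : ℕ → Option α := fun p =>
    if p % (s + 1) < s then yv (π ((ρ ^ (p % (s + 1))) v)) else yv (σ v)
  have hx1 : ∀ p, p % (s + 1) < s → x p = xv ((ρ ^ (p % (s + 1))) v) := fun p hp => if_pos hp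
  have hx2 : ∀ p, ¬ p % (s + 1) < s → x p = none := fun p hp => if_neg hp
  have hy1 : ∀ p, p % (s + 1) < s → y p = yv (π ((ρ ^ (p % (s + 1))) v)) := fun p hp => if_pos hp
  have hy2 : ∀ p, ¬ p % (s + 1) < s → y p = yv (σ v) := fun p hp => if_neg hp
  have hnone : ∀ (Q : Matroid α) (w : V R T q), AR Q R T none (yv w) := by
    rintro Q (w | w)
    · exact trivial
    · exact w.1.2
  refine ⟨x, y, ⟨?_, ?_, ?_, ?_⟩, ?_⟩
  · intro p
    change (if (p + (s + 1)) % (s + 1) < s then _ else _) = _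
    rw [Nat.add_mod_right]
  · intro p
    change (if (p + (s + 1)) % (s + 1) < s then _ else _) = _
    rw [Nat.add_mod_right]
  · intro p
    by_cases hp : p % (s + 1) < s
    · rw [hx1 p hp, hy1 p hp]
      exact hπA _
    · rw [hx2 p hp]
      by_cases hp' : p % (s + 1) < s
      · exact absurd hp' hp
      · rw [hy2 p hp]
        exact hnone _ _
  · intro p
    have hmod : p % (s + 1) < s + 1 := Nat.mod_lt _ (Nat.succ_pos s)
    by_cases hp : p % (s + 1) < s
    · have hp1 : (p + 1) % (s + 1) = p % (s + 1) + 1 := by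
        rw [Nat.add_mod, Nat.mod_eq_of_lt (by omega : 1 < s + 1), Nat.mod_eq_of_lt (by omega)]
      rw [hy1 p hp]
      by_cases hp2 : (p + 1) % (s + 1) < s
      · rw [hx1 _ hp2, hp1, pow_succ', Equiv.Perm.mul_apply, hρ]
        have e1 := hσA (σ (π ((ρ ^ (p % (s + 1))) v)))
        rwa [hσ] at e1
      · rw [hx2 _ hp2]
        exact hnone _ _
    · have hp1 : (p + 1) % (s + 1) = 0 := by
        have e1 : p % (s + 1) = s := by omega
        rw [Nat.add_mod, e1]
        rcases Nat.eq_zero_or_pos s with h0 | h0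
        · omega
        · rw [Nat.mod_eq_of_lt (by omega : 1 < s + 1), Nat.mod_self]
      rw [hy2 p hp, hx1 _ (by omega), hp1, pow_zero, Equiv.Perm.one_apply]
      exact hσA v
  · have e1 : gain (wa om) (wb c om) (s + 1) x y = G v := by
      change ∑ p ∈ range (s + 1), (wa om (x p) - wb c om (y p)) = _
      rw [Finset.sum_range_succ]
      have e2 : s % (s + 1) = s := Nat.mod_eq_of_lt (Nat.lt_succ_self s)
      rw [hx2 s (by omega), hy2 s (by omega)]
      have e3 : ∀ p ∈ range s, wa om (x p) - wb c om (y p) =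
          wa om (xv ((ρ ^ p) v)) - wb c om (yv (π ((ρ ^ p) v))) := by
        intro p hp
        have e4 := mem_range.1 hp
        have e5 : p % (s + 1) = p := Nat.mod_eq_of_lt (by omega)
        rw [hx1 p (by omega), hy1 p (by omega), e5]
      rw [Finset.sum_congr rfl e3]
      change _ + ((0 : ℝ) - _) = _
      change _ = ∑ p ∈ range s, (wa om (xv ((ρ ^ p) v)) - wb c om (yv (π ((ρ ^ p) v)))) -
        wb c om (yv (σ v))
      ring
    rw [e1]
    exact hv

end Pool.Agent.Helper94.SR
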